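import Pool.Agent.Q32.RD.Stm
set_option autoImplicit false

/-! Job RD-CG of helper32: countably generated submodules of free modules over Boolean rings. -/

namespace Q285.RD

universe u

open Q32.RD

section

variable {V : Type u} [CommRing V] (hV : ∀ v : V, v * v = v) {B : Type u}

include hV in
theorem step1 (x : B →₀ V) : ∃ ψ : (B →₀ V) →ₗ[V] V, ψ x • x = x := by
  classical
  have key : ∀ s : Finset B, ∃ ψ : (B →₀ V) →ₗ[V] V, ∀ b ∈ s, ψ x * x b = x b := by
    intro s
    induction s using Finset.induction_on with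
    | empty => exact ⟨0, by simp⟩
    | insert b s _ ih =>
      obtain ⟨ψ, hψ⟩ := ih
      refine ⟨ψ + (1 - ψ x) • Finsupp.lapply b, fun c hc => ?_⟩
      rw [LinearMap.add_apply, LinearMap.smul_apply, Finsupp.lapply_apply, smul_eq_mul]
      rcases Finset.mem_insert.1 hc with rfl | hc
      · have h1 := hV (x c)
        linear_combination (1 - ψ x) * h1
      · have h1 := hψ c hc
        linear_combination (1 - x b) * h1
  obtain ⟨ψ, hψ⟩ := key x.support
  refine ⟨ψ, Finsupp.ext fun b => ?_⟩
  rw [Finsupp.smul_apply, smul_eq_mul]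
  by_cases hb : b ∈ x.support
  · exact hψ b hb
  · rw [Finsupp.notMem_support_iff.1 hb, mul_zero]

include hV in
theorem step2 (x : ℕ → (B →₀ V)) (n : ℕ) : ∃ φ : (B →₀ V) →ₗ[V] (B →₀ V),
    (∀ y, φ y ∈ Submodule.span V (x '' Set.Iio n)) ∧
    ∀ y ∈ Submodule.span V (x '' Set.Iio n), φ y = y := by
  induction n with
  | zero =>
    refine ⟨0, fun y => by simp, fun y hy => ?_⟩
    have h1 : y = 0 := by simpa using hy
    rw [h1, map_zero]
  | succ n ih =>
    obtain ⟨φ, h1, h2⟩ := ih
    have hmono : Submodule.span V (x '' Set.Iio n) ≤ Submodule.span V (x '' Set.Iio (n + 1)) :=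
      Submodule.span_mono (Set.image_mono (Set.Iio_subset_Iio (Nat.le_succ n)))
    have hxn : x n ∈ Submodule.span V (x '' Set.Iio (n + 1)) :=
      Submodule.subset_span ⟨n, by simp, rfl⟩
    obtain ⟨ψ, hψ⟩ := step1 hV (x n - φ (x n))
    set x' : B →₀ V := x n - φ (x n) with hx'
    have hx'm : x' ∈ Submodule.span V (x '' Set.Iio (n + 1)) :=
      Submodule.sub_mem _ hxn (hmono (h1 _))
    have hφx' : φ x' = 0 := by
      rw [hx', map_sub, h2 _ (h1 (x n)), sub_self]
    refine ⟨φ + (ψ.smulRight x') ∘ₗ (LinearMap.id - φ), fun y => ?_, fun y hy => ?_⟩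
    · rw [LinearMap.add_apply, LinearMap.comp_apply, LinearMap.smulRight_apply]
      exact Submodule.add_mem _ (hmono (h1 y)) (Submodule.smul_mem _ _ hx'm)
    · have hle : Submodule.span V (x '' Set.Iio (n + 1)) ≤
          LinearMap.eqLocus (φ + (ψ.smulRight x') ∘ₗ (LinearMap.id - φ)) LinearMap.id := by
        rw [Submodule.span_le]
        rintro _ ⟨m, hm, rfl⟩
        rw [SetLike.mem_coe, LinearMap.mem_eqLocus]
        rcases Nat.lt_succ_iff_lt_or_eq.1 (Set.mem_Iio.1 hm) with hmn | hmn
        · have e1 : φ (x m) = x m := h2 _ (Submodule.subset_span ⟨m, hmn, rfl⟩)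
          simp [e1]
        · rw [hmn]
          have e2 : (LinearMap.id - φ : (B →₀ V) →ₗ[V] (B →₀ V)) (x n) = x' := rfl
          rw [LinearMap.add_apply, LinearMap.comp_apply, e2, LinearMap.smulRight_apply, hψ,
            LinearMap.id_apply, hx']
          abel
      exact LinearMap.mem_eqLocus.1 (hle hy)

end

theorem cg : S_CG.{u} := by
  classical
  intro V _ hV B x
  choose φ h1 h2 using step2 hV x
  set X := Submodule.span V (Set.range x) with hX
  have hYX : ∀ n, Submodule.span V (x '' Set.Iio n) ≤ X := fun n =>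
    Submodule.span_mono (Set.image_subset_range _ _)
  have hmono : ∀ {m n : ℕ}, m ≤ n →
      Submodule.span V (x '' Set.Iio m) ≤ Submodule.span V (x '' Set.Iio n) := fun h =>
    Submodule.span_mono (Set.image_mono (Set.Iio_subset_Iio h))
  have hex : ∀ z ∈ X, ∃ N, z ∈ Submodule.span V (x '' Set.Iio N) := by
    intro z hz
    refine Submodule.span_induction (p := fun z _ => ∃ N, z ∈ Submodule.span V (x '' Set.Iio N))
      ?_ ?_ ?_ ?_ hz
    · rintro _ ⟨m, rfl⟩
      exact ⟨m + 1, Submodule.subset_span ⟨m, by simp, rfl⟩⟩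
    · exact ⟨0, Submodule.zero_mem _⟩
    · rintro a b _ _ ⟨N, hN⟩ ⟨M, hM⟩
      exact ⟨max N M, Submodule.add_mem _ (hmono (le_max_left _ _) hN)
        (hmono (le_max_right _ _) hM)⟩
    · rintro v a _ ⟨N, hN⟩
      exact ⟨N, Submodule.smul_mem _ _ hN⟩
  have hfix : ∀ {z : B →₀ V} {N n : ℕ}, z ∈ Submodule.span V (x '' Set.Iio N) → N ≤ n →
      φ n z = z := fun hz hn => h2 _ _ (hmono hn hz)
  have hfin : ∀ z : X, (Function.support fun n => (z : B →₀ V) - φ n z).Finite := by
    intro z
    obtain ⟨N, hN⟩ := hex z z.2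
    refine (Set.finite_Iio N).subset fun n hn => ?_
    by_contra h
    exact hn (by simp only; rw [hfix hN (not_lt.1 h), sub_self])
  let A : X →ₗ[V] (ℕ →₀ (B →₀ V)) :=
    { toFun := fun z => Finsupp.ofSupportFinite (fun n => (z : B →₀ V) - φ n z) (hfin z)
      map_add' := fun z w => by
        refine Finsupp.ext fun n => ?_
        rw [Finsupp.add_apply]
        change ((z + w : X) : B →₀ V) - φ n ((z + w : X) : B →₀ V) =
          ((z : B →₀ V) - φ n z) + ((w : B →₀ V) - φ n w)
        rw [Submodule.coe_add, map_add]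
        abel
      map_smul' := fun v z => by
        refine Finsupp.ext fun n => ?_
        rw [Finsupp.smul_apply, RingHom.id_apply]
        change ((v • z : X) : B →₀ V) - φ n ((v • z : X) : B →₀ V) = v • ((z : B →₀ V) - φ n z)
        rw [Submodule.coe_smul, map_smul, smul_sub] }
  have hA : ∀ z n, A z n = (z : B →₀ V) - φ n z := fun z n => rfl
  let Bm : (ℕ →₀ (B →₀ V)) →ₗ[V] X :=
    Finsupp.lsum V fun n => (φ (n + 1)).codRestrict X fun y => hYX _ (h1 _ y)
  refine Module.Projective.of_split A Bm ?_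
  refine LinearMap.ext fun z => Subtype.ext ?_
  obtain ⟨N, hN⟩ := hex z z.2
  have hsub : (A z).support ⊆ Finset.range N := by
    intro n hn
    rw [Finset.mem_range]
    by_contra h
    rw [Finsupp.mem_support_iff, hA, hfix hN (not_lt.1 h), sub_self] at hn
    exact hn rfl
  rw [LinearMap.comp_apply, LinearMap.id_apply]
  change (((Finsupp.lsum V fun n => (φ (n + 1)).codRestrict X fun y => hYX _ (h1 _ y)) (A z) : X) :
    B →₀ V) = z
  rw [Finsupp.lsum_apply, Finsupp.sum_of_support_subset _ hsub _ (fun n _ => map_zero _),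
    Submodule.coe_sum]
  have hterm : ∀ n ∈ Finset.range N, (((φ (n + 1)).codRestrict X (fun y => hYX _ (h1 _ y))
      (A z n) : X) : B →₀ V) = φ (n + 1) z - φ n z := by
    intro n _
    rw [LinearMap.codRestrict_apply, hA, map_sub, h2 (n + 1) _ (hmono (Nat.le_succ n) (h1 n _))]
  rw [Finset.sum_congr rfl hterm, Finset.sum_range_sub (fun n => φ n (z : B →₀ V)),
    hfix hN le_rfl]
  have h0 : φ 0 (z : B →₀ V) = 0 := by
    have := h1 0 (z : B →₀ V)
    simpa using this
  rw [h0, sub_zero]

end Q285.RD
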