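import Pool.Agent.Q32.RD.Stm
set_option autoImplicit false

/-! Job RD-RG1 of helper32: the ring is projective over `V`. -/

namespace Q285.RD

universe u

open Q32.RD

section

variable {I V : Type u} [CommRing V] (S : Sys I V)

/-- multiplication by the idempotents -/
noncomputable def em : (I →₀ V) →ₗ[V] (I →₀ V) where
  toFun x := Finsupp.onFinset x.support (fun i => S.e i * x i) (by
    intro i h
    rw [Finsupp.mem_support_iff]
    intro h0
    rw [h0, mul_zero] at h
    exact h rfl)
  map_add' x y := by
    ext i
    simp [mul_add]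
  map_smul' v x := by
    ext i
    simp [mul_left_comm]

theorem em_apply (x : I →₀ V) (i : I) : em S x i = S.e i * x i := rfl

end

theorem rg1 : S_RG1.{u} := by
  intro I V _ S W _ _ D _ hV
  have := D.proj
  have hidem : ∀ v : V, v * v = v := S.idem
  let i : RA D →ₗ[V] V × W × (I →₀ V) :=
    { toFun := fun a => (a.1.fs, a.1.sn, a.1.th)
      map_add' := fun a b => rfl
      map_smul' := fun v a => by
        rw [hV]
        refine Prod.ext ?_ (Prod.ext ?_ ?_)
        · rfl
        · change (inc D v * a : RA D).1.sn = v • a.1.sn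
          rw [D.smul_L]
          change D.L v * a.1.sn + (0 : W) * D.R a.1.fs = _
          rw [zero_mul, add_zero]
        · change v • a.1.th + a.1.fs • (0 : I →₀ V) = v • a.1.th
          rw [smul_zero, add_zero] }
  let s : V × W × (I →₀ V) →ₗ[V] RA D :=
    { toFun := fun x => ⟨Big.mk' D x.1 (x.2.1 - D.L (D.μ x.2.1)) (em S x.2.2), by
        refine ⟨?_, fun i => ?_⟩
        · rw [Big.sn_mk, map_sub, D.mu_L, sub_self]
        · rw [Big.th_mk, em_apply, ← mul_assoc, hidem]⟩
      map_add' := fun x y => by
        refine Subtype.ext (Big.ext ?_ ?_ ?_)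
        · rfl
        · change (x.2.1 + y.2.1) - D.L (D.μ (x.2.1 + y.2.1)) =
            (x.2.1 - D.L (D.μ x.2.1)) + (y.2.1 - D.L (D.μ y.2.1))
          rw [map_add, map_add]
          ring
        · change em S (x.2.2 + y.2.2) = em S x.2.2 + em S y.2.2
          rw [map_add]
      map_smul' := fun v x => by
        rw [RingHom.id_apply, hV]
        refine Subtype.ext (Big.ext ?_ ?_ ?_)
        · rfl
        · change v • x.2.1 - D.L (D.μ (v • x.2.1)) =
            D.L v * (x.2.1 - D.L (D.μ x.2.1)) + (0 : W) * D.R x.1
          rw [D.smul_L, map_mul, map_mul, D.mu_L]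
          ring
        · change em S (v • x.2.2) = v • em S x.2.2 + x.1 • (0 : I →₀ V)
          rw [map_smul, smul_zero, add_zero] }
  refine Module.Projective.of_split i s ?_
  refine LinearMap.ext fun a => ?_
  refine Subtype.ext (Big.ext ?_ ?_ ?_)
  · rfl
  · change a.1.sn - D.L (D.μ a.1.sn) = a.1.sn
    rw [a.2.1, map_zero, sub_zero]
  · change em S a.1.th = a.1.th
    refine Finsupp.ext fun l => ?_
    rw [em_apply, a.2.2 l]

end Q285.RD
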