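import Pool.Agent.Q32.RD.Stm
set_option autoImplicit false

/-! Job RD-X1 of helper32: from the vanishing of the second Ext group to a splitting. -/

namespace Q285.RD

universe u

open Q32.RD

theorem x1 : S_X1.{u} := by
  intro V _ X C J B0 B1 _ _ _ _ _ _ π bd Φ hJ hΦ hπ hbd hext E _ _ i p hi hp hex
  classical
  -- lift of the projection
  obtain ⟨h0, hh0⟩ := Module.projective_lifting_property p π hp
  have hh0' : ∀ z, p (h0 z) = π z := fun z => LinearMap.congr_fun hh0 z
  have hbd0 : ∀ y, π (bd y) = 0 := by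
    intro y
    have h1 : bd y ∈ LinearMap.ker π := by
      rw [← hbd]
      exact LinearMap.mem_range_self _ _
    exact LinearMap.mem_ker.1 h1
  have hr : ∀ y, h0 (bd y) ∈ LinearMap.range i := by
    intro y
    rw [hex, LinearMap.mem_ker, hh0', hbd0]
  -- lift to `J`
  obtain ⟨h1, hh1⟩ := Module.projective_lifting_property
    (i.rangeRestrict ∘ₗ (LinearMap.range Φ).mkQ)
    ((h0 ∘ₗ bd).codRestrict (LinearMap.range i) hr)
    (i.surjective_rangeRestrict.comp (Submodule.mkQ_surjective _))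
  have hh1' : ∀ y, i ((LinearMap.range Φ).mkQ (h1 y)) = h0 (bd y) := by
    intro y
    have := congrArg Subtype.val (LinearMap.congr_fun hh1 y)
    exact this
  have hk : ∀ x : LinearMap.ker bd, h1 x ∈ LinearMap.range Φ := by
    intro x
    have e1 : i ((LinearMap.range Φ).mkQ (h1 x)) = 0 := by
      rw [hh1', LinearMap.mem_ker.1 x.2, map_zero]
    have e2 : (LinearMap.range Φ).mkQ (h1 x) = 0 := hi (e1.trans (map_zero i).symm)
    rwa [Submodule.mkQ_apply, Submodule.Quotient.mk_eq_zero] at e2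
  set f : LinearMap.ker bd →ₗ[V] C := (LinearEquiv.ofInjective Φ hΦ).symm.toLinearMap ∘ₗ
    ((h1 ∘ₗ (LinearMap.ker bd).subtype).codRestrict (LinearMap.range Φ) hk) with hf
  have hf' : ∀ x : LinearMap.ker bd, Φ (f x) = h1 x := by
    intro x
    have e1 := (LinearEquiv.ofInjective Φ hΦ).apply_symm_apply
      (((h1 ∘ₗ (LinearMap.ker bd).subtype).codRestrict (LinearMap.range Φ) hk) x)
    have e2 := congrArg Subtype.val e1
    rw [LinearEquiv.ofInjective_apply] at e2
    exact e2
  obtain ⟨g, hg⟩ := hext f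
  -- extension to `J`
  have hkill : LinearMap.ker bd ≤ LinearMap.ker (h1 - Φ ∘ₗ g) := by
    intro x hx
    rw [LinearMap.mem_ker, LinearMap.sub_apply, LinearMap.comp_apply]
    have e1 := hg ⟨x, hx⟩
    have e2 := hf' ⟨x, hx⟩
    have e3 : g x = f ⟨x, hx⟩ := e1
    rw [e3, e2, sub_self]
  obtain ⟨k, hk'⟩ := hJ.out ((LinearMap.ker bd).liftQ bd le_rfl) (by
    rw [← LinearMap.ker_eq_bot]
    exact Submodule.ker_liftQ_eq_bot _ _ _ le_rfl) ((LinearMap.ker bd).liftQ (h1 - Φ ∘ₗ g) hkill)
  have hkb : ∀ y, k (bd y) = h1 y - Φ (g y) := by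
    intro y
    have e1 := hk' (Submodule.Quotient.mk y)
    rw [Submodule.liftQ_apply, Submodule.liftQ_apply] at e1
    exact e1
  set t0 : (B0 →₀ V) →ₗ[V] E := h0 - i ∘ₗ (LinearMap.range Φ).mkQ ∘ₗ k with ht0
  have ht0k : LinearMap.ker π ≤ LinearMap.ker t0 := by
    intro z hz
    rw [← hbd] at hz
    obtain ⟨y, rfl⟩ := hz
    rw [LinearMap.mem_ker, ht0, LinearMap.sub_apply, LinearMap.comp_apply, LinearMap.comp_apply,
      hkb, map_sub, map_sub, hh1']
    have e1 : (LinearMap.range Φ).mkQ (Φ (g y)) = 0 := by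
      rw [Submodule.mkQ_apply, Submodule.Quotient.mk_eq_zero]
      exact LinearMap.mem_range_self _ _
    rw [e1, map_zero, sub_zero, sub_self]
  set t : X →ₗ[V] E := (LinearMap.ker π).liftQ t0 ht0k ∘ₗ
    (π.quotKerEquivOfSurjective hπ).symm.toLinearMap with ht
  have htπ : ∀ z, t (π z) = t0 z := by
    intro z
    rw [ht, LinearMap.comp_apply]
    have e1 : (π.quotKerEquivOfSurjective hπ).symm (π z) = Submodule.Quotient.mk z := by
      rw [LinearEquiv.symm_apply_eq]
      rfl
    rw [LinearEquiv.coe_coe, e1, Submodule.liftQ_apply]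
  have hpi : ∀ c, p (i c) = 0 := by
    intro c
    have : i c ∈ LinearMap.ker p := by
      rw [← hex]
      exact LinearMap.mem_range_self _ _
    exact LinearMap.mem_ker.1 this
  have hpt : ∀ x, p (t x) = x := by
    intro x
    obtain ⟨z, rfl⟩ := hπ x
    rw [htπ, ht0, LinearMap.sub_apply, map_sub, hh0', LinearMap.comp_apply, hpi, sub_zero]
  have hrr : ∀ w, (LinearMap.id - t ∘ₗ p : E →ₗ[V] E) w ∈ LinearMap.range i := by
    intro w
    rw [hex, LinearMap.mem_ker, LinearMap.sub_apply, LinearMap.id_apply, LinearMap.comp_apply,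
      map_sub, hpt, sub_self]
  refine ⟨(LinearEquiv.ofInjective i hi).symm.toLinearMap ∘ₗ
    ((LinearMap.id - t ∘ₗ p : E →ₗ[V] E).codRestrict (LinearMap.range i) hrr), fun c => ?_⟩
  rw [LinearMap.comp_apply, LinearEquiv.coe_coe, LinearEquiv.symm_apply_eq]
  refine Subtype.ext ?_
  rw [LinearEquiv.ofInjective_apply, LinearMap.codRestrict_apply, LinearMap.sub_apply,
    LinearMap.id_apply, LinearMap.comp_apply, hpi, map_zero, sub_zero]

end Q285.RD
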